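import Pool.Agent.Helper94.KC.GoalsC

/-!
# MP_bf413e_co, project KC, packet RK: rank count for a connected 2-complex
-/

set_option autoImplicit false

namespace Pool.Agent.Helper36.KC

open Pool.Agent.Helper94.KC
open scoped Classical
open Finset

/-- the indicator of a subset -/
noncomputable def ind {α : Type} (S S' : Finset α) : S → ZMod 2 := fun a => if (a : α) ∈ S' then 1 else 0

/-- the subset of a vector -/
noncomputable def uni {α : Type} {S : Finset α} (x : S → ZMod 2) : Finset α :=
  (univ.filter fun a : S => x a = 1).map (Function.Embedding.subtype _)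

theorem uni_sub {α : Type} {S : Finset α} (x : S → ZMod 2) : uni x ⊆ S := by
  intro a ha
  obtain ⟨b, _, rfl⟩ := Finset.mem_map.1 ha
  exact b.2

theorem zmod2 (x : ZMod 2) : x = 0 ∨ x = 1 := by
  revert x
  decide

theorem ind_uni {α : Type} {S : Finset α} (x : S → ZMod 2) : ind S (uni x) = x := by
  funext a
  unfold ind
  by_cases h : x a = 1
  · rw [if_pos, h]
    exact Finset.mem_map.2 ⟨a, Finset.mem_filter.2 ⟨Finset.mem_univ _, h⟩, rfl⟩
  · rw [if_neg, ((zmod2 (x a)).resolve_right h)]
    intro h1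
    obtain ⟨b, hb, hba⟩ := Finset.mem_map.1 h1
    have h2 : b = a := Subtype.ext hba
    rw [h2] at hb
    exact h (Finset.mem_filter.1 hb).2

theorem ind_inj {α : Type} {S z z' : Finset α} (hz : z ⊆ S) (hz' : z' ⊆ S)
    (h : ind S z = ind S z') : z = z' := by
  have key : ∀ a ∈ S, (a ∈ z ↔ a ∈ z') := by
    intro a ha
    have h1 := congrFun h ⟨a, ha⟩
    unfold ind at h1
    by_cases h2 : a ∈ z
    · rw [if_pos h2] at h1
      by_cases h3 : a ∈ z'
      · exact ⟨fun _ => h3, fun _ => h2⟩
      · rw [if_neg h3] at h1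
        exact absurd h1 one_ne_zero
    · rw [if_neg h2] at h1
      by_cases h3 : a ∈ z'
      · rw [if_pos h3] at h1
        exact absurd h1.symm one_ne_zero
      · exact ⟨fun h => absurd h h2, fun h => absurd h h3⟩
  ext a
  exact ⟨fun h => (key a (hz h)).1 h, fun h => (key a (hz' h)).2 h⟩

/-- counting the members of a subset with a property -/
theorem sum_ind {α : Type} {S z : Finset α} (hz : z ⊆ S) (p : α → Prop) :
    ∑ a : S, (if p a then (1 : ZMod 2) else 0) * ind S z a = ((z.filter p).card : ZMod 2) := by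
  have h1 : ∀ a : S, (if p a then (1 : ZMod 2) else 0) * ind S z a =
      (fun a : α => if a ∈ z ∧ p a then (1 : ZMod 2) else 0) a := by
    intro a
    unfold ind
    by_cases h2 : p a
    · by_cases h3 : (a : α) ∈ z
      · simp [h2, h3]
      · simp [h2, h3]
    · simp [h2]
  rw [Finset.sum_congr rfl fun a _ => h1 a, Finset.sum_coe_sort S
    (fun a : α => if a ∈ z ∧ p a then (1 : ZMod 2) else 0), Finset.sum_boole]
  congr 2
  ext a
  simp only [Finset.mem_filter]
  constructor
  · rintro ⟨_, h⟩
    exact h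
  · rintro ⟨h, h'⟩
    exact ⟨hz h, h, h'⟩

theorem even_iff (n : ℕ) : Even n ↔ (n : ZMod 2) = 0 := by
  rw [ZMod.natCast_eq_zero_iff, even_iff_two_dvd]

theorem odd_iff (n : ℕ) : Odd n ↔ (n : ZMod 2) = 1 := by
  rw [← Nat.not_even_iff_odd, even_iff]
  constructor
  · intro h
    exact (zmod2 _).resolve_left h
  · intro h
    rw [h]
    exact one_ne_zero

section

variable {V : Type} [Fintype V] {T : Finset (Finset V)} {W : Finset V} {F D : Finset (Finset V)}

/-- the incidence matrix of vertices and edges -/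
noncomputable def AM (W : Finset V) (F : Finset (Finset V)) : Matrix W F (ZMod 2) :=
  fun v e => if (v : V) ∈ (e : Finset V) then 1 else 0

/-- the incidence matrix of edges and triangles -/
noncomputable def BM (F D : Finset (Finset V)) : Matrix F D (ZMod 2) :=
  fun e t => if (e : Finset V) ⊆ (t : Finset V) then 1 else 0

theorem even2_iff (hFW : ∀ e ∈ F, e ⊆ W) {z : Finset (Finset V)} (hz : z ⊆ F) :
    Even2 z ↔ (AM W F).mulVec (ind F z) = 0 := by
  have h1 : ∀ v : W, (AM W F).mulVec (ind F z) v = ((z.filter fun e => (v : V) ∈ e).card : ZMod 2) :=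
    fun v => by
      have h0 : (AM W F).mulVec (ind F z) v =
        ∑ e : F, (if (v : V) ∈ (e : Finset V) then (1 : ZMod 2) else 0) * ind F z e := rfl
      rw [h0]
      convert sum_ind hz (fun e => (v : V) ∈ e)
  constructor
  · intro h
    funext v
    rw [h1 v, (even_iff _).1 (h v)]
    rfl
  · intro h v
    by_cases hv : v ∈ W
    · have h2 := h1 ⟨v, hv⟩
      rw [h] at h2
      exact (even_iff _).2 h2.symm
    · have h2 : z.filter (fun e => v ∈ e) = ∅ := by
        refine Finset.filter_eq_empty_iff.2 fun e he hve => ?_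
        exact hv (hFW e (hz he) hve)
      rw [h2]
      exact ⟨0, rfl⟩

theorem bd_iff (hF : F ⊆ ed T) (hDF : ∀ t ∈ D, ∀ e ∈ ed T, e ⊆ t → e ∈ F)
    {D' z : Finset (Finset V)} (hD : D' ⊆ D) (hz : z ⊆ F) :
    bd T D' = z ↔ (BM F D).mulVec (ind D D') = ind F z := by
  have h1 : ∀ e : F, (BM F D).mulVec (ind D D') e =
      ((D'.filter fun t => (e : Finset V) ⊆ t).card : ZMod 2) :=
    fun e => by
      have h0 : (BM F D).mulVec (ind D D') e =
        ∑ t : D, (if (e : Finset V) ⊆ (t : Finset V) then (1 : ZMod 2) else 0) * ind D D' t := rfl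
      rw [h0]
      convert sum_ind hD (fun t => (e : Finset V) ⊆ t)
  have hbF : bd T D' ⊆ F := by
    intro e he
    obtain ⟨h2, h3⟩ := Finset.mem_filter.1 he
    have h4 : (D'.filter fun t => e ⊆ t).Nonempty := by
      rw [← Finset.card_pos]
      exact h3.pos
    obtain ⟨t, ht⟩ := h4
    obtain ⟨h5, h6⟩ := Finset.mem_filter.1 ht
    exact hDF t (hD h5) e h2 h6
  have h2 : (BM F D).mulVec (ind D D') = ind F (bd T D') := by
    funext e
    rw [h1 e]
    unfold ind
    by_cases h3 : (e : Finset V) ∈ bd T D'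
    · rw [if_pos h3]
      exact (odd_iff _).1 (Finset.mem_filter.1 h3).2
    · rw [if_neg h3]
      refine (zmod2 _).resolve_right fun h4 => h3 ?_
      exact Finset.mem_filter.2 ⟨hF e.2, (odd_iff _).2 h4⟩
  rw [h2]
  constructor
  · intro h
    rw [h]
  · intro h
    exact ind_inj hbF hz h

theorem mul_zero_AB (hT : Surf T) (hF : F ⊆ ed T) (hDT : D ⊆ T)
    (hDF : ∀ t ∈ D, ∀ e ∈ ed T, e ⊆ t → e ∈ F) : AM W F * BM F D = 0 := by
  ext v t
  rw [Matrix.mul_apply, Matrix.zero_apply]
  have h1 : ∀ e : F, AM W F v e * BM F D e t = (fun e : Finset V =>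
      if (v : V) ∈ e ∧ e ⊆ (t : Finset V) then (1 : ZMod 2) else 0) e := by
    intro e
    unfold AM BM
    by_cases h2 : (v : V) ∈ (e : Finset V)
    · by_cases h3 : (e : Finset V) ⊆ (t : Finset V)
      · simp [h2, h3]
      · simp [h2, h3]
    · simp [h2]
  rw [Finset.sum_congr rfl fun e _ => h1 e, Finset.sum_coe_sort F
    (fun e : Finset V => if (v : V) ∈ e ∧ e ⊆ (t : Finset V) then (1 : ZMod 2) else 0),
    Finset.sum_boole]
  by_cases hv : (v : V) ∈ (t : Finset V)
  · have h2 : F.filter (fun e => (v : V) ∈ e ∧ e ⊆ (t : Finset V)) =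
        ((t : Finset V).erase v).image fun x => ({(v : V), x} : Finset V) := by
      ext e
      simp only [Finset.mem_filter, Finset.mem_image, Finset.mem_erase]
      constructor
      · rintro ⟨h3, h4, h5⟩
        have h6 : e.card = 2 := (Finset.mem_filter.1 (hF h3)).2.1
        obtain ⟨a, b, hab, rfl⟩ := Finset.card_eq_two.1 h6
        rcases Finset.mem_insert.1 h4 with h7 | h7
        · refine ⟨b, ⟨?_, h5 (by simp)⟩, ?_⟩
          · rw [h7]
            exact hab.symm
          · rw [h7]
        · have h8 := Finset.mem_singleton.1 h7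
          refine ⟨a, ⟨?_, h5 (by simp)⟩, ?_⟩
          · rw [h8]
            exact hab
          · rw [h8, Finset.pair_comm]
      · rintro ⟨x, ⟨h3, h4⟩, rfl⟩
        have h5 : ({(v : V), x} : Finset V) ⊆ (t : Finset V) := by
          intro y hy
          rcases Finset.mem_insert.1 hy with rfl | hy
          · exact hv
          · rw [Finset.mem_singleton.1 hy]
            exact h4
        refine ⟨hDF t t.2 _ ?_ h5, by simp, h5⟩
        refine Finset.mem_filter.2 ⟨Finset.mem_univ _, Finset.card_pair (Ne.symm h3), t,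
          hDT t.2, h5⟩
    rw [h2, Finset.card_image_of_injOn, Finset.card_erase_of_mem hv, hT.card t (hDT t.2)]
    · rfl
    · intro x hx y hy hxy
      have hx' := Finset.mem_erase.1 (Finset.mem_coe.1 hx)
      have h3 : x ∈ ({(v : V), y} : Finset V) := by
        have h4 : x ∈ ({(v : V), x} : Finset V) := by simp
        have hxy' : ({(v : V), x} : Finset V) = {(v : V), y} := hxy
        rwa [hxy'] at h4
      rcases Finset.mem_insert.1 h3 with h4 | h4
      · exact absurd h4 hx'.1
      · exact Finset.mem_singleton.1 h4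
  · have h2 : F.filter (fun e => (v : V) ∈ e ∧ e ⊆ (t : Finset V)) = ∅ := by
      refine Finset.filter_eq_empty_iff.2 ?_
      rintro e _ ⟨h3, h4⟩
      exact hv (h4 h3)
    rw [h2]
    rfl

theorem ker_one (hW : W.Nonempty) (hF : F ⊆ ed T) (hFW : ∀ e ∈ F, e ⊆ W)
    (hcon : ∀ u ∈ W, ∀ v ∈ W, (gr F).Reachable u v) :
    Module.finrank (ZMod 2) (LinearMap.ker (AM W F).transpose.mulVecLin) = 1 := by
  -- the value at an edge
  have hval : ∀ (h : W → ZMod 2) (u v : V) (huv : u ≠ v) (hu : u ∈ W) (hv : v ∈ W)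
      (he : ({u, v} : Finset V) ∈ F),
      (AM W F).transpose.mulVec h ⟨{u, v}, he⟩ = h ⟨u, hu⟩ + h ⟨v, hv⟩ := by
    intro h u v huv hu hv he
    have h1 : (AM W F).transpose.mulVec h ⟨{u, v}, he⟩ =
        ∑ x : W, (if (x : V) ∈ ({u, v} : Finset V) then 1 else 0) * h x := rfl
    rw [h1]
    have h2 : ∑ x : W, (if (x : V) ∈ ({u, v} : Finset V) then (1 : ZMod 2) else 0) * h x =
        ∑ x ∈ ({⟨u, hu⟩, ⟨v, hv⟩} : Finset W), h x := by
      rw [← Finset.sum_filter_add_sum_filter_not univ
        (fun x : W => (x : V) ∈ ({u, v} : Finset V))]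
      have h3 : ∑ x ∈ univ.filter (fun x : W => ¬ (x : V) ∈ ({u, v} : Finset V)),
          (if (x : V) ∈ ({u, v} : Finset V) then (1 : ZMod 2) else 0) * h x = 0 := by
        refine Finset.sum_eq_zero fun x hx => ?_
        rw [if_neg (Finset.mem_filter.1 hx).2, zero_mul]
      rw [h3, add_zero]
      have h4 : univ.filter (fun x : W => (x : V) ∈ ({u, v} : Finset V)) =
          ({⟨u, hu⟩, ⟨v, hv⟩} : Finset W) := by
        ext x
        simp only [Finset.mem_filter, Finset.mem_univ, true_and, Finset.mem_insert,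
          Finset.mem_singleton, Subtype.ext_iff]
      rw [h4]
      refine Finset.sum_congr rfl fun x hx => ?_
      rw [← h4] at hx
      rw [if_pos (Finset.mem_filter.1 hx).2, one_mul]
    rw [h2, Finset.sum_pair]
    intro h3
    exact huv (Subtype.ext_iff.1 h3)
  -- kernel elements are constant
  have hconst : ∀ h : W → ZMod 2, (AM W F).transpose.mulVec h = 0 → ∀ u v : W, h u = h v := by
    intro h hh
    have hedge : ∀ u v : V, (gr F).Adj u v → ∃ (hu : u ∈ W) (hv : v ∈ W), h ⟨u, hu⟩ = h ⟨v, hv⟩ := by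
      rintro u v ⟨huv, he⟩
      have hu : u ∈ W := hFW _ he (by simp)
      have hv : v ∈ W := hFW _ he (by simp)
      refine ⟨hu, hv, ?_⟩
      have h1 := hval h u v huv hu hv he
      rw [hh] at h1
      have h2 : h ⟨u, hu⟩ + h ⟨v, hv⟩ = 0 := h1.symm
      exact CharTwo.add_eq_zero.1 h2
    have hwalk : ∀ (u v : V), (gr F).Walk u v → ∀ (hu : u ∈ W) (hv : v ∈ W),
        h ⟨u, hu⟩ = h ⟨v, hv⟩ := by
      intro u v w
      induction w with
      | nil => exact fun _ _ => rfl
      | cons hadj _ ih =>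
        intro hu hv
        obtain ⟨h1, h2, h3⟩ := hedge _ _ hadj
        exact h3.trans (ih h2 hv)
    intro u v
    obtain ⟨w⟩ := hcon u u.2 v v.2
    exact hwalk u v w u.2 v.2
  obtain ⟨w0, hw0⟩ := hW
  have hone : (fun _ => 1 : W → ZMod 2) ∈ LinearMap.ker (AM W F).transpose.mulVecLin := by
    rw [LinearMap.mem_ker, Matrix.mulVecLin_apply]
    funext e
    obtain ⟨e, he⟩ := e
    obtain ⟨u, v, huv, rfl⟩ := Finset.card_eq_two.1 (Finset.mem_filter.1 (hF he)).2.1
    rw [hval _ u v huv (hFW _ he (by simp)) (hFW _ he (by simp)) he]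
    show (1 : ZMod 2) + 1 = 0
    decide
  refine (finrank_eq_one_iff_of_nonzero' (⟨_, hone⟩ : LinearMap.ker
    (AM W F).transpose.mulVecLin) ?_).2 ?_
  · intro h
    have h1 := congrFun (Subtype.ext_iff.1 h) ⟨w0, hw0⟩
    exact one_ne_zero h1
  · rintro ⟨h, hh⟩
    refine ⟨h ⟨w0, hw0⟩, ?_⟩
    rw [LinearMap.mem_ker, Matrix.mulVecLin_apply] at hh
    apply Subtype.ext
    funext v
    change h ⟨w0, hw0⟩ * 1 = h v
    rw [mul_one]
    exact hconst h hh _ _

theorem rk : StmtRK := by
  intro V _ T hT W F D hW hF hFW hDT hDF hcon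
  have hker := ker_one hW hF hFW hcon
  have e1 := LinearMap.finrank_range_add_finrank_ker (AM W F).transpose.mulVecLin
  have e2 := LinearMap.finrank_range_add_finrank_ker (AM W F).mulVecLin
  have e3 : Module.finrank (ZMod 2) (LinearMap.range (AM W F).transpose.mulVecLin) =
      Module.finrank (ZMod 2) (LinearMap.range (AM W F).mulVecLin) :=
    Matrix.rank_transpose (AM W F)
  have e4 := LinearMap.finrank_range_add_finrank_ker (BM F D).mulVecLin
  rw [hker, e3, Module.finrank_fintype_fun_eq_card, Fintype.card_coe] at e1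
  rw [Module.finrank_fintype_fun_eq_card, Fintype.card_coe] at e2 e4
  constructor
  · intro H
    have hle : LinearMap.ker (AM W F).mulVecLin ≤ LinearMap.range (BM F D).mulVecLin := by
      intro x hx
      rw [LinearMap.mem_ker, Matrix.mulVecLin_apply] at hx
      have h1 : Even2 (uni x) := (even2_iff hFW (uni_sub x)).2 (by rw [ind_uni]; exact hx)
      obtain ⟨D', hD', hb⟩ := H (uni x) (uni_sub x) h1
      have h2 := (bd_iff hF hDF hD' (uni_sub x)).1 hb
      rw [ind_uni] at h2
      exact ⟨ind D D', h2⟩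
    have h3 := Submodule.finrank_mono hle
    omega
  · intro hcard hinj
    have hk : LinearMap.ker (BM F D).mulVecLin = ⊥ := by
      rw [LinearMap.ker_eq_bot']
      intro y hy
      rw [Matrix.mulVecLin_apply] at hy
      have h1 : bd T (uni y) = ∅ := by
        refine (bd_iff hF hDF (uni_sub y) (Finset.empty_subset F)).2 ?_
        rw [ind_uni, hy]
        funext e
        unfold ind
        rw [if_neg (Finset.notMem_empty _)]
        rfl
      have h2 := hinj (uni y) (uni_sub y) h1
      have h3 := ind_uni y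
      rw [h2] at h3
      rw [← h3]
      funext e
      unfold ind
      rw [if_neg (Finset.notMem_empty _)]
      rfl
    rw [hk, finrank_bot] at e4
    have hle : LinearMap.range (BM F D).mulVecLin ≤ LinearMap.ker (AM W F).mulVecLin := by
      rintro x ⟨y, rfl⟩
      rw [LinearMap.mem_ker, Matrix.mulVecLin_apply, Matrix.mulVecLin_apply,
        Matrix.mulVec_mulVec, mul_zero_AB hT hF hDT hDF, Matrix.zero_mulVec]
    have heq := Submodule.eq_of_le_of_finrank_eq hle (by omega)
    intro z hz hev
    have h1 : ind F z ∈ LinearMap.ker (AM W F).mulVecLin := by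
      rw [LinearMap.mem_ker, Matrix.mulVecLin_apply]
      exact (even2_iff hFW hz).1 hev
    rw [← heq] at h1
    obtain ⟨y, hy⟩ := h1
    rw [Matrix.mulVecLin_apply] at hy
    refine ⟨uni y, uni_sub y, (bd_iff hF hDF (uni_sub y) hz).2 ?_⟩
    rw [ind_uni]
    exact hy

end

end Pool.Agent.Helper36.KC
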